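import Pool.Agent.N89.HG.Stm
import Pool.Agent.N803.HX.ONE
import Pool.Agent.N861.HX.WB

/-!
# Project HG (helper89), ONEG (helper136): the density theorem on a line for the group `𝒢`
-/

set_option autoImplicit false

namespace Pool.Agent.N136.HG.ONEG

open Polynomial Pool.Agent.N89.HX Pool.Agent.N89.HG
open Pool.Agent.N803.HX.ONE (low row bp_low monic_low natDegree_low coeff_low mono_map mem_of_pow
  bp_map pol_of_mono pol_map bp_monic bp_deg)

/-! ### Functoriality -/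

theorem rg_low {O A : Type} [CommRing O] [CommRing A] (φ : O →+* A) {k e m : ℕ}
    (R : Fin m → MvPolynomial (Fin k ⊕ Fin e) O) (t : Fin k → A) (ω : Fin e → A) :
    rg φ R t ω = low (fun i => MvPolynomial.eval₂ φ (Sum.elim t ω) (R i)) := rfl

theorem elim_hom {A B : Type} [CommRing A] [CommRing B] (ψ : A →+* B) {k e : ℕ} (t : Fin k → A)
    (ω : Fin e → A) : (ψ ∘ Sum.elim t ω) = Sum.elim (fun j => ψ (t j)) (fun i => ψ (ω i)) := by
  funext i
  cases i <;> rfl

theorem cf_hom {O A B : Type} [CommRing O] [CommRing A] [CommRing B] (φ : O →+* A) (ψ : A →+* B)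
    {k e : ℕ} (P : MvPolynomial (Fin k ⊕ Fin e) O) (t : Fin k → A) (ω : Fin e → A) :
    ψ (MvPolynomial.eval₂ φ (Sum.elim t ω) P) =
      MvPolynomial.eval₂ (ψ.comp φ) (Sum.elim (fun j => ψ (t j)) (fun i => ψ (ω i))) P := by
  rw [MvPolynomial.eval₂_comp_left, elim_hom]

theorem rg_map {O A B : Type} [CommRing O] [CommRing A] [CommRing B] (φ : O →+* A) (ψ : A →+* B)
    {k e m : ℕ} (R : Fin m → MvPolynomial (Fin k ⊕ Fin e) O) (t : Fin k → A) (ω : Fin e → A) :
    (rg φ R t ω).map ψ = rg (ψ.comp φ) R (fun j => ψ (t j)) (fun i => ψ (ω i)) := by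
  unfold rg
  rw [Polynomial.map_add, Polynomial.map_pow, map_X, Polynomial.map_sum]
  congr 1
  refine Finset.sum_congr rfl fun i _ => ?_
  rw [Polynomial.map_mul, map_C, Polynomial.map_pow, map_X, cf_hom]

theorem ev_hom {O A B : Type} [CommRing O] [CommRing A] [CommRing B] (φ : O →+* A) (ψ : A →+* B)
    {k e : ℕ} (h : Fin (e + 1) → MvPolynomial (Fin k) O) (t : Fin k → A) (i : Fin (e + 1)) :
    ψ (ev φ h t i) = ev (ψ.comp φ) h (fun j => ψ (t j)) i := by
  unfold ev
  rw [MvPolynomial.eval₂_comp_left]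
  rfl

theorem disc_hom {A B : Type} [CommRing A] [CommRing B] (ψ : A →+* B) {e : ℕ}
    (D : MvPolynomial (Fin (e + 1)) ℤ) (f : Fin (e + 1) → A) :
    ψ (MvPolynomial.aeval f D) = MvPolynomial.aeval (fun i => ψ (f i)) D := by
  have h1 := MvPolynomial.comp_aeval f (ψ.toIntAlgHom)
  have h2 := DFunLike.congr_fun h1 D
  exact h2

/-! ### Degrees -/

theorem deg_eval₂ {σ' O A : Type} [CommRing O] [CommRing A] (φ : O →+* A) (P : MvPolynomial σ' O)
    (g : σ' → A[X]) (n : ℕ) (hg : ∀ i, (g i).natDegree ≤ n) :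
    (MvPolynomial.eval₂ ((C : A →+* A[X]).comp φ) g P).natDegree ≤ P.totalDegree * n := by
  have h1 : MvPolynomial.eval₂ ((C : A →+* A[X]).comp φ) g P =
      MvPolynomial.aeval g (P.map φ) := by
    rw [MvPolynomial.aeval_def, MvPolynomial.eval₂_map]
    rfl
  rw [h1]
  refine MvPolynomial.aeval_natDegree_le _ ?_ _ hg
  unfold MvPolynomial.totalDegree
  exact Finset.sup_mono (MvPolynomial.support_map_subset _ _)

theorem deg_pt {A : Type} [CommRing A] {k : ℕ} (y v : Fin k → A) (j : Fin k) :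
    (pt y v j).natDegree ≤ 1 := by
  unfold pt
  refine (natDegree_add_le _ _).trans (max_le ?_ ?_)
  · rw [natDegree_C]
    exact Nat.zero_le _
  · exact (natDegree_C_mul_le _ _).trans natDegree_X_le

theorem deg_disc {A : Type} [CommRing A] {e : ℕ} (D : MvPolynomial (Fin (e + 1)) ℤ)
    (f : Fin (e + 1) → A[X]) (B : ℕ) (hf : ∀ i, (f i).natDegree ≤ B) :
    (MvPolynomial.aeval f D).natDegree ≤ D.totalDegree * B := by
  have h1 : MvPolynomial.aeval f D =
      MvPolynomial.eval₂ ((C : A →+* A[X]).comp (Int.castRingHom A)) f D := by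
    rw [MvPolynomial.aeval_def]
    congr 1
  rw [h1]
  exact deg_eval₂ _ D f B hf

/-! ### Invariance under the group -/

theorem rg_perm {O : Type} [CommRing O] {k e : ℕ} {h : Fin (e + 1) → MvPolynomial (Fin k) O}
    {𝒢 : Subgroup (Equiv.Perm (Fin e))} [Fintype 𝒢] (R : RG h 𝒢) {A : Type} [CommRing A]
    [IsDomain A] (φ : O →+* A) (t : Fin k → A) (ω : Fin e → A) (σ : Equiv.Perm (Fin e))
    (hσ : σ ∈ 𝒢) : rg φ R.R t (fun i => ω (σ i)) = rg φ R.R t ω := by
  obtain ⟨ι, hι⟩ : ∃ ι : A →+* AlgebraicClosure (FractionRing A), Function.Injective ι :=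
    ⟨(algebraMap (FractionRing A) (AlgebraicClosure (FractionRing A))).comp
      (algebraMap A (FractionRing A)),
      (algebraMap (FractionRing A) (AlgebraicClosure (FractionRing A))).injective.comp
        (IsFractionRing.injective A (FractionRing A))⟩
  apply Polynomial.map_injective ι hι
  rw [rg_map, rg_map]
  obtain ⟨W, -, hW⟩ := R.spec _ (ι.comp φ) (fun j => ι (t j))
  rw [hW, hW]
  refine Fintype.prod_equiv (Equiv.mulRight (⟨σ, hσ⟩ : 𝒢)⁻¹) _ _ fun τ => ?_
  congr 2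
  conv_rhs => rw [← Equiv.sum_comp σ]
  refine Finset.sum_congr rfl fun i _ => ?_
  simp

theorem cf_perm {O : Type} [CommRing O] {k e : ℕ} {h : Fin (e + 1) → MvPolynomial (Fin k) O}
    {𝒢 : Subgroup (Equiv.Perm (Fin e))} [Fintype 𝒢] (R : RG h 𝒢) {A : Type} [CommRing A]
    [IsDomain A] (φ : O →+* A) (t : Fin k → A) (ω : Fin e → A) (σ : Equiv.Perm (Fin e))
    (hσ : σ ∈ 𝒢) (i : Fin (Fintype.card 𝒢)) :
    MvPolynomial.eval₂ φ (Sum.elim t (fun i => ω (σ i))) (R.R i) =
      MvPolynomial.eval₂ φ (Sum.elim t ω) (R.R i) := by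
  have h1 := rg_perm R φ t ω σ hσ
  unfold rg at h1
  have h2 := coeff_low (fun i => MvPolynomial.eval₂ φ (Sum.elim t (fun i => ω (σ i))) (R.R i)) i
  have h3 := coeff_low (fun i => MvPolynomial.eval₂ φ (Sum.elim t ω) (R.R i)) i
  rw [← h2, ← h3, h1]

/-- an admissible numbering, composed with an element of the group -/
theorem adm_perm {O M : Type} [CommRing O] [Field M] (φ : O →+* M) {k e : ℕ}
    {h : Fin (e + 1) → MvPolynomial (Fin k) O} {𝒢 : Subgroup (Equiv.Perm (Fin e))} [Fintype 𝒢]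
    {m : ℕ} {R : Fin (Fintype.card 𝒢) → MvPolynomial (Fin k ⊕ Fin e) O} {t : Fin k → M}
    {W : Fin e → M} (hW : AdmR φ h 𝒢 m R t W) (τ : 𝒢) :
    AdmR φ h 𝒢 m R t (fun i => W ((τ : Equiv.Perm (Fin e)) i)) := by
  refine ⟨?_, fun ω => ?_⟩
  · rw [hW.1]
    exact (Equiv.prod_comp (τ : Equiv.Perm (Fin e)) fun i => (X - C (W i))).symm
  · rw [hW.2]
    refine (Fintype.prod_equiv (Equiv.mulLeft τ) _ _ fun ρ => ?_).symm
    rfl

/-! ### Descent -/

theorem descend {O : Type} [CommRing O] {k e : ℕ} {h : Fin (e + 1) → MvPolynomial (Fin k) O}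
    {𝒢 : Subgroup (Equiv.Perm (Fin e))} [Fintype 𝒢] (R : RG h 𝒢) {F Ω : Type} [Field F]
    [Fintype F] [Field Ω] [Algebra F Ω] (φ : O →+* F) (y v : Fin k → F)
    (σ : Equiv.Perm (Fin e)) (hσ : σ ∈ 𝒢) (ω : Fin e → Ω)
    (hω : ∀ i, ω i ^ Fintype.card F = ω (σ i)) (B' : ℕ) (hB' : ∀ i, (R.R i).totalDegree ≤ B') :
    ∃ h' : Fin (Fintype.card 𝒢) → Fin (B' + 1) → F,
      rg ((C : Ω →+* Polynomial Ω).comp ((algebraMap F Ω).comp φ)) R.R
        (pt (fun j => algebraMap F Ω (y j)) (fun j => algebraMap F Ω (v j)))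
        (fun i => C (ω i)) = bp (fun i j => algebraMap F Ω (h' i j)) := by
  obtain ⟨a, ha⟩ : ∃ a : Fin (Fintype.card 𝒢) → Polynomial Ω, ∀ i, a i =
      MvPolynomial.eval₂ ((C : Ω →+* Polynomial Ω).comp ((algebraMap F Ω).comp φ))
        (Sum.elim (pt (fun j => algebraMap F Ω (y j)) (fun j => algebraMap F Ω (v j)))
          (fun i => C (ω i))) (R.R i) := ⟨_, fun _ => rfl⟩
  have hdeg : ∀ i, (a i).natDegree ≤ B' := by
    intro i
    rw [ha]
    have g1 : ∀ j, ((Sum.elim (pt (fun j => algebraMap F Ω (y j)) (fun j => algebraMap F Ω (v j)))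
        (fun i => C (ω i)) : Fin k ⊕ Fin e → Polynomial Ω) j).natDegree ≤ 1 := by
      rintro (j | j)
      · rw [Sum.elim_inl]
        exact deg_pt _ _ _
      · rw [Sum.elim_inr, natDegree_C]
        exact Nat.zero_le _
    have g2 := deg_eval₂ ((algebraMap F Ω).comp φ) (R.R i) _ 1 g1
    rw [mul_one] at g2
    exact g2.trans (hB' i)
  obtain ⟨Φ, hΦ, hΦk⟩ : ∃ Φ : Ω →+* Ω, (∀ x, Φ x = x ^ Fintype.card F) ∧
      Φ.comp (algebraMap F Ω) = algebraMap F Ω :=
    ⟨(FiniteField.frobeniusAlgHom F Ω).toRingHom, fun x => rfl,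
      (FiniteField.frobeniusAlgHom F Ω).comp_algebraMap⟩
  have hΦk' : ∀ x : F, Φ (algebraMap F Ω x) = algebraMap F Ω x := fun x =>
    RingHom.congr_fun hΦk x
  have hfr : ∀ i, (a i).map Φ = a i := by
    intro i
    rw [ha, ← coe_mapRingHom, cf_hom]
    have e0 : (mapRingHom Φ).comp ((C : Ω →+* Polynomial Ω).comp ((algebraMap F Ω).comp φ)) =
        (C : Ω →+* Polynomial Ω).comp ((algebraMap F Ω).comp φ) := by
      apply RingHom.ext
      intro x
      simp only [RingHom.comp_apply, coe_mapRingHom, map_C, hΦk']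
    have e1 : (fun j => mapRingHom Φ
        (pt (fun j => algebraMap F Ω (y j)) (fun j => algebraMap F Ω (v j)) j)) =
        pt (fun j => algebraMap F Ω (y j)) (fun j => algebraMap F Ω (v j)) := by
      funext j
      unfold pt
      simp only [coe_mapRingHom, Polynomial.map_add, Polynomial.map_mul, map_C, map_X, hΦk']
    have e2 : (fun i => mapRingHom Φ (C (ω i) : Polynomial Ω)) =
        fun i => (fun i => (C (ω i) : Polynomial Ω)) (σ i) := by
      funext i
      rw [coe_mapRingHom, map_C, hΦ, hω]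
    rw [e0, e1, e2]
    exact cf_perm R _ _ (fun i => (C (ω i) : Polynomial Ω)) σ hσ i
  have hfix : ∀ i j, ∃ y : F, algebraMap F Ω y = (a i).coeff j := by
    intro i j
    apply mem_of_pow
    rw [← hΦ, ← coeff_map, hfr]
  choose h' hh using hfix
  refine ⟨fun i j => h' i j, ?_⟩
  have h3 : ∀ i, a i = row (fun j : Fin (B' + 1) => algebraMap F Ω (h' i j)) := by
    intro i
    unfold row
    rw [Fin.sum_univ_eq_sum_range (fun j => C (algebraMap F Ω (h' i j)) * X ^ j) (B' + 1)]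
    conv_lhs => rw [(a i).as_sum_range_C_mul_X_pow' (Nat.lt_succ_of_le (hdeg i))]
    refine Finset.sum_congr rfl fun j _ => ?_
    rw [hh]
  rw [rg_low, bp_low]
  congr 1
  funext i
  rw [← ha i]
  exact h3 i

/-! ### Separating weights -/

theorem exists_sep {Ω : Type} [Field Ω] [Infinite Ω] {e : ℕ} (W : Fin e → Ω)
    (hW : Function.Injective W) (m : Ω) (hm : m ≠ 0) :
    ∃ s : Ω, Function.Injective fun ρ : Equiv.Perm (Fin e) =>
      ∑ i : Fin e, s ^ (i : ℕ) * (m * W (ρ i)) := by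
  classical
  obtain ⟨P, hP⟩ : ∃ P : Equiv.Perm (Fin e) → Equiv.Perm (Fin e) → Polynomial Ω, ∀ ρ ρ',
      P ρ ρ' = ∑ i : Fin e, C (W (ρ i) - W (ρ' i)) * X ^ (i : ℕ) := ⟨_, fun _ _ => rfl⟩
  have hP0 : ∀ ρ ρ', ρ ≠ ρ' → P ρ ρ' ≠ 0 := by
    intro ρ ρ' hne h0
    apply hne
    ext i
    have h1 : (P ρ ρ').coeff i = W (ρ i) - W (ρ' i) := by
      rw [hP, finsetSum_coeff, Finset.sum_eq_single i]
      · rw [coeff_C_mul, coeff_X_pow, if_pos rfl, mul_one]
      · intro j _ hj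
        rw [coeff_C_mul, coeff_X_pow, if_neg (fun h => hj (Fin.ext h.symm)), mul_zero]
      · intro h
        exact absurd (Finset.mem_univ i) h
    rw [h0, coeff_zero] at h1
    have h2 : W (ρ i) = W (ρ' i) := (sub_eq_zero.1 h1.symm)
    rw [hW h2]
  obtain ⟨Q, hQ⟩ : ∃ Q : Polynomial Ω, Q = ∏ p ∈ Finset.univ.filter
      (fun p : Equiv.Perm (Fin e) × Equiv.Perm (Fin e) => p.1 ≠ p.2), P p.1 p.2 := ⟨_, rfl⟩
  have hQ0 : Q ≠ 0 := by
    rw [hQ, Finset.prod_ne_zero_iff]
    intro p hp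
    rw [Finset.mem_filter] at hp
    exact hP0 _ _ hp.2
  obtain ⟨s, hs⟩ : ∃ s : Ω, Q.eval s ≠ 0 := by
    by_contra hcon
    push Not at hcon
    exact hQ0 (Polynomial.funext fun s => by rw [hcon s, eval_zero])
  refine ⟨s, fun ρ ρ' hρ => ?_⟩
  by_contra hne
  apply hs
  rw [hQ, eval_prod]
  apply Finset.prod_eq_zero (i := (ρ, ρ'))
    (Finset.mem_filter.2 ⟨Finset.mem_univ _, hne⟩)
  simp only at hρ
  rw [hP, eval_finsetSum]
  have h1 : m * ∑ i : Fin e, (C (W (ρ i) - W (ρ' i)) * X ^ (i : ℕ) : Polynomial Ω).eval s =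
      ∑ i : Fin e, s ^ (i : ℕ) * (m * W (ρ i)) - ∑ i : Fin e, s ^ (i : ℕ) * (m * W (ρ' i)) := by
    rw [← Finset.sum_sub_distrib, Finset.mul_sum]
    refine Finset.sum_congr rfl fun i _ => ?_
    rw [eval_mul, eval_C, eval_pow, eval_X]
    ring
  rw [hρ, sub_self] at h1
  exact (mul_eq_zero.1 h1).resolve_left hm

/-! ### The points -/

theorem pol_mono {M : Type} [Field M] {e : ℕ} (f : Fin (e + 1) → M) (W : Fin e → M)
    (h0 : f (Fin.last e) ≠ 0) (h : mono f = ∏ i, (X - C (W i))) :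
    pol f = C (f (Fin.last e)) * ∏ i, (X - C (W i / f (Fin.last e))) := by
  rcases Nat.eq_zero_or_pos e with he | he
  · subst he
    unfold pol
    rw [Fin.sum_univ_succ, Finset.univ_eq_empty, Finset.sum_empty, Finset.prod_empty, add_zero,
      mul_one, Fin.val_zero, pow_zero, mul_one]
    rfl
  · exact pol_of_mono he f W h0 h

theorem point {O : Type} [CommRing O] {k e : ℕ} {h : Fin (e + 1) → MvPolynomial (Fin k) O}
    {𝒢 : Subgroup (Equiv.Perm (Fin e))} [Fintype 𝒢] (R : RG h 𝒢)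
    {D : MvPolynomial (Fin (e + 1)) ℤ} (hD : IsDisc D) {F Ω : Type} [Field F] [Fintype F]
    [Field Ω] [IsAlgClosed Ω] [Algebra F Ω] (φ : O →+* F) (t : Fin k → F)
    (hDt : MvPolynomial.aeval (ev φ h t) D ≠ 0) (hm : (R.m : F) ≠ 0)
    (σ : Equiv.Perm (Fin e)) (hσ : σ ∈ 𝒢) (ω : Fin e → Ω)
    (hω : ∀ i, ω i ^ Fintype.card F = ω (σ i))
    (hsep : (rg ((algebraMap F Ω).comp φ) R.R (fun j => algebraMap F Ω (t j)) ω).Separable)
    (z : F) (hz : (rg ((algebraMap F Ω).comp φ) R.R (fun j => algebraMap F Ω (t j)) ω).eval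
      (algebraMap F Ω z) = 0) : HasTypeG Ω φ R t σ := by
  classical
  obtain ⟨f, hf⟩ : ∃ f, f = ev φ h t := ⟨_, rfl⟩
  have hfΩ : ev ((algebraMap F Ω).comp φ) h (fun j => algebraMap F Ω (t j)) =
      fun i => algebraMap F Ω (f i) := by
    funext i
    rw [hf, ev_hom]
  obtain ⟨W, hW⟩ := R.spec Ω ((algebraMap F Ω).comp φ) (fun j => algebraMap F Ω (t j))
  have hWm : mono (fun i => algebraMap F Ω (f i)) = ∏ i, (X - C (W i)) := by
    rw [← hfΩ]
    exact hW.1
  have hmΩ : (R.m : Ω) ≠ 0 := by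
    have : algebraMap F Ω (R.m : F) = (R.m : Ω) := map_natCast _ _
    rw [← this]
    exact (map_ne_zero_iff _ (algebraMap F Ω).injective).2 hm
  have hdisc : MvPolynomial.aeval (fun i => algebraMap F Ω (f i)) D ≠ 0 := by
    rw [← disc_hom, hf]
    exact (map_ne_zero_iff _ (algebraMap F Ω).injective).2 hDt
  have hdd : ¬ (algebraMap F Ω (f (Fin.last e)) = 0 ∨ ¬ Function.Injective W) := fun hc =>
    hdisc ((hD Ω (fun i => algebraMap F Ω (f i)) W hWm).2 hc)
  push Not at hdd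
  obtain ⟨hlast, hWi⟩ := hdd
  have hlastF : f (Fin.last e) ≠ 0 := fun h0 => hlast (by rw [h0, map_zero])
  obtain ⟨v, hv⟩ : ∃ v : 𝒢 → Ω, ∀ τ : 𝒢, v τ =
      ∑ i, ω i * ((R.m : Ω) * W ((τ : Equiv.Perm (Fin e)) i)) := ⟨_, fun _ => rfl⟩
  have hrs : rg ((algebraMap F Ω).comp φ) R.R (fun j => algebraMap F Ω (t j)) ω =
      ∏ τ, (X - C (v τ)) := by
    rw [hW.2 ω]
    exact Finset.prod_congr rfl fun τ _ => by rw [hv]
  have hvi : Function.Injective v := by
    rw [hrs] at hsep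
    exact separable_prod_X_sub_C_iff.1 hsep
  -- the Frobenius
  obtain ⟨Φ, hΦ, hΦk⟩ : ∃ Φ : Ω →+* Ω, (∀ x, Φ x = x ^ Fintype.card F) ∧
      Φ.comp (algebraMap F Ω) = algebraMap F Ω :=
    ⟨(FiniteField.frobeniusAlgHom F Ω).toRingHom, fun x => rfl,
      (FiniteField.frobeniusAlgHom F Ω).comp_algebraMap⟩
  have hΦk' : ∀ x : F, Φ (algebraMap F Ω x) = algebraMap F Ω x := fun x =>
    RingHom.congr_fun hΦk x
  have hΦm : Φ (R.m : Ω) = (R.m : Ω) := map_natCast _ _
  have hex : ∀ i, ∃ j, Φ (W i) = W j := by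
    intro i
    have h1 : (mono fun i => algebraMap F Ω (f i)).eval (W i) = 0 := by
      rw [hWm, eval_prod]
      exact Finset.prod_eq_zero (Finset.mem_univ i) (by rw [eval_sub, eval_X, eval_C, sub_self])
    have h2 : (mono fun i => algebraMap F Ω (f i)).eval (Φ (W i)) = 0 := by
      have h3 : (mono fun i => algebraMap F Ω (f i)).map Φ =
          mono fun i => algebraMap F Ω (f i) := by
        rw [mono_map]
        simp only [hΦk']
      rw [← h3, eval_map_apply, h1, map_zero]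
    rw [hWm, eval_prod] at h2
    obtain ⟨j, -, hj⟩ := Finset.prod_eq_zero_iff.1 h2
    rw [eval_sub, eval_X, eval_C, sub_eq_zero] at hj
    exact ⟨j, hj⟩
  choose π₀ hπ₀ using hex
  have hπi : Function.Injective π₀ := by
    intro a b hab
    apply hWi
    apply Φ.injective
    rw [hπ₀, hπ₀, hab]
  obtain ⟨π, hπ⟩ : ∃ π : Equiv.Perm (Fin e), ∀ i, Φ (W i) = W (π i) :=
    ⟨Equiv.ofBijective π₀ (Finite.injective_iff_bijective.1 hπi), fun i => hπ₀ i⟩
  -- the Frobenius permutation is in the group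
  have hπG : π ∈ 𝒢 := by
    have hinf : Infinite Ω := IsAlgClosed.instInfinite
    obtain ⟨s, hs⟩ := exists_sep W hWi (R.m : Ω) hmΩ
    obtain ⟨r, hr⟩ : ∃ r : Ω, r ^ Fintype.card F = s :=
      IsAlgClosed.exists_pow_nat_eq s Fintype.card_pos
    have h1 := hW.2 (fun i : Fin e => r ^ (i : ℕ))
    have h2 := hW.2 (fun i : Fin e => s ^ (i : ℕ))
    have h3 : (rg ((algebraMap F Ω).comp φ) R.R (fun j => algebraMap F Ω (t j))
        (fun i : Fin e => r ^ (i : ℕ))).map Φ =
        rg ((algebraMap F Ω).comp φ) R.R (fun j => algebraMap F Ω (t j))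
          (fun i : Fin e => s ^ (i : ℕ)) := by
      rw [rg_map]
      have e0 : Φ.comp ((algebraMap F Ω).comp φ) = (algebraMap F Ω).comp φ := by
        rw [← RingHom.comp_assoc, hΦk]
      have e1 : (fun j => Φ (algebraMap F Ω (t j))) = fun j => algebraMap F Ω (t j) := by
        funext j
        exact hΦk' _
      have e2 : (fun i : Fin e => Φ (r ^ (i : ℕ))) = fun i : Fin e => s ^ (i : ℕ) := by
        funext i
        rw [map_pow, hΦ, hr]
      rw [e0, e1, e2]
    rw [h2] at h3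
    have h4 : (rg ((algebraMap F Ω).comp φ) R.R (fun j => algebraMap F Ω (t j))
        (fun i : Fin e => r ^ (i : ℕ))).eval
        (∑ i : Fin e, r ^ (i : ℕ) * ((R.m : Ω) * W (((1 : 𝒢) : Equiv.Perm (Fin e)) i))) = 0 := by
      rw [h1, eval_prod]
      exact Finset.prod_eq_zero (Finset.mem_univ (1 : 𝒢))
        (by rw [eval_sub, eval_X, eval_C, sub_self])
    have h5 := congrArg (fun p => Polynomial.eval
      (Φ (∑ i : Fin e, r ^ (i : ℕ) * ((R.m : Ω) * W (((1 : 𝒢) : Equiv.Perm (Fin e)) i)))) p) h3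
    beta_reduce at h5
    rw [eval_map_apply, h4, map_zero, eval_prod] at h5
    obtain ⟨ρ, -, hρ⟩ := Finset.prod_eq_zero_iff.1 h5.symm
    rw [eval_sub, eval_X, eval_C, sub_eq_zero] at hρ
    have h6 : Φ (∑ i : Fin e, r ^ (i : ℕ) * ((R.m : Ω) *
        W (((1 : 𝒢) : Equiv.Perm (Fin e)) i))) =
        ∑ i : Fin e, s ^ (i : ℕ) * ((R.m : Ω) * W (π i)) := by
      rw [map_sum]
      refine Finset.sum_congr rfl fun i _ => ?_
      rw [map_mul, map_mul, map_pow, hΦ r, hr, hΦm]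
      congr 2
      rw [hπ]
      rfl
    rw [h6] at hρ
    have h7 := hs hρ
    rw [h7]
    exact ρ.2
  -- the root
  obtain ⟨τ, hτ⟩ : ∃ τ, algebraMap F Ω z = v τ := by
    rw [hrs, eval_prod] at hz
    obtain ⟨τ, -, hτ⟩ := Finset.prod_eq_zero_iff.1 hz
    rw [eval_sub, eval_X, eval_C, sub_eq_zero] at hτ
    exact ⟨τ, hτ⟩
  have hpt : (⟨π, hπG⟩ : 𝒢) * τ = τ * ⟨σ, hσ⟩ := by
    have h1 : v ((⟨π, hπG⟩ : 𝒢) * τ * (⟨σ, hσ⟩ : 𝒢)⁻¹) = v τ := by
      rw [← hτ]
      conv_rhs => rw [← hΦk' z, hτ, hv, map_sum]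
      rw [hv, ← Equiv.sum_comp σ]
      refine Finset.sum_congr rfl fun i _ => ?_
      rw [map_mul, map_mul, hΦ (ω i), hω, hΦm, hπ]
      simp
    have h2 := hvi h1
    rw [mul_inv_eq_iff_eq_mul] at h2
    exact h2
  have hpt' : ∀ i, π ((τ : Equiv.Perm (Fin e)) i) = (τ : Equiv.Perm (Fin e)) (σ i) := by
    intro i
    have := congrArg (fun ρ : 𝒢 => (ρ : Equiv.Perm (Fin e)) i) hpt
    simpa using this
  refine ⟨fun i => W ((τ : Equiv.Perm (Fin e)) i) / algebraMap F Ω (f (Fin.last e)),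
    ⟨?_, ?_, ?_⟩, ?_, ?_⟩
  · rw [← hf]
    exact hlastF
  · intro a b hab
    simp only at hab
    exact (τ : Equiv.Perm (Fin e)).injective (hWi ((div_left_inj' hlast).1 hab))
  · rw [← hf, pol_map, pol_mono _ W hlast hWm]
    congr 1
    exact (Equiv.prod_comp (τ : Equiv.Perm (Fin e))
      fun i => (X - C (W i / algebraMap F Ω (f (Fin.last e))))).symm
  · have e1 : (fun i => algebraMap F Ω (ev φ h t (Fin.last e)) *
        (W ((τ : Equiv.Perm (Fin e)) i) / algebraMap F Ω (f (Fin.last e)))) =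
        fun i => W ((τ : Equiv.Perm (Fin e)) i) := by
      funext i
      rw [← hf, mul_div_cancel₀ _ hlast]
    unfold Adm
    rw [e1]
    exact adm_perm _ hW τ
  · intro i
    rw [← hΦ, map_div₀, hπ, hΦk', hpt']

/-! ### The theorem -/

/-- the specialisation of `bp h'` at `x`, in `Ω` -/
theorem spec_map {O : Type} [CommRing O] {k e : ℕ} {h : Fin (e + 1) → MvPolynomial (Fin k) O}
    {𝒢 : Subgroup (Equiv.Perm (Fin e))} [Fintype 𝒢] (R : RG h 𝒢) {F Ω : Type} [Field F]
    [Field Ω] [Algebra F Ω] {B' : ℕ} (φ : O →+* F) (y v : Fin k → F) (ω : Fin e → Ω)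
    (h' : Fin (Fintype.card 𝒢) → Fin (B' + 1) → F)
    (hh : rg ((C : Ω →+* Polynomial Ω).comp ((algebraMap F Ω).comp φ)) R.R
        (pt (fun j => algebraMap F Ω (y j)) (fun j => algebraMap F Ω (v j)))
        (fun i => C (ω i)) = bp (fun i j => algebraMap F Ω (h' i j))) (x : F) :
    ((bp h').map (evalRingHom x)).map (algebraMap F Ω) =
      rg ((algebraMap F Ω).comp φ) R.R (fun j => algebraMap F Ω (y j + v j * x)) ω := by
  have h1 := congrArg (Polynomial.map (evalRingHom (algebraMap F Ω x))) hh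
  rw [rg_map, ← bp_map, Polynomial.map_map] at h1
  have e1 : (evalRingHom (algebraMap F Ω x)).comp (mapRingHom (algebraMap F Ω)) =
      (algebraMap F Ω).comp (evalRingHom x) := by
    apply Polynomial.ringHom_ext
    · intro a
      simp
    · simp
  have e0 : (evalRingHom (algebraMap F Ω x)).comp
      ((C : Ω →+* Polynomial Ω).comp ((algebraMap F Ω).comp φ)) = (algebraMap F Ω).comp φ := by
    apply RingHom.ext
    intro a
    simp
  have e2 : (fun j => evalRingHom (algebraMap F Ω x)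
      (pt (fun j => algebraMap F Ω (y j)) (fun j => algebraMap F Ω (v j)) j)) =
      fun j => algebraMap F Ω (y j + v j * x) := by
    funext j
    unfold pt
    simp
  have e3 : (fun i => evalRingHom (algebraMap F Ω x) (C (ω i))) = ω := by
    funext i
    rw [coe_evalRingHom, eval_C]
  rw [e0, e1, e2, e3] at h1
  rw [Polynomial.map_map]
  exact h1.symm

/-- the discriminant at a point of the line -/
theorem disc_pt {O : Type} [CommRing O] {k e : ℕ} (h : Fin (e + 1) → MvPolynomial (Fin k) O)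
    (D : MvPolynomial (Fin (e + 1)) ℤ) {F : Type} [Field F] (φ : O →+* F) (y v : Fin k → F)
    (x : F) : (MvPolynomial.aeval (ev ((C : F →+* F[X]).comp φ) h (pt y v)) D).eval x =
      MvPolynomial.aeval (ev φ h (fun j => y j + v j * x)) D := by
  have key : ∀ i1 : Algebra ℤ F[X],
      @MvPolynomial.aeval ℤ F[X] (Fin (e + 1)) _ _ i1
        (ev ((C : F →+* F[X]).comp φ) h (pt y v)) D =
      MvPolynomial.eval₂ (Int.castRingHom F[X]) (ev ((C : F →+* F[X]).comp φ) h (pt y v)) D := by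
    intro i1
    rw [MvPolynomial.aeval_def]
    congr 1
    exact RingHom.ext_int _ _
  rw [← coe_evalRingHom, key, ← key (Ring.toIntAlgebra F[X]), disc_hom]
  congr 2
  funext i
  rw [ev_hom]
  have e0 : (evalRingHom x).comp ((C : F →+* F[X]).comp φ) = φ := by
    apply RingHom.ext
    intro a
    simp
  have e1 : (fun j => evalRingHom x (pt y v j)) = fun j => y j + v j * x := by
    funext j
    unfold pt
    simp
  rw [e0, e1]

/-- the number of the points of the resolvent -/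
theorem count {O : Type} [CommRing O] {k e : ℕ} {h : Fin (e + 1) → MvPolynomial (Fin k) O}
    {𝒢 : Subgroup (Equiv.Perm (Fin e))} [Fintype 𝒢] (R : RG h 𝒢)
    {D : MvPolynomial (Fin (e + 1)) ℤ} (hD : IsDisc D) {F Ω : Type} [Field F] [Fintype F]
    [Field Ω] [IsAlgClosed Ω] [Algebra F Ω] {B B' : ℕ} (hB : ∀ i, (h i).totalDegree ≤ B)
    (φ : O →+* F) (y v : Fin k → F)
    (hD0 : MvPolynomial.aeval (ev ((C : F →+* F[X]).comp φ) h (pt y v)) D ≠ 0)
    (hm : (R.m : F) ≠ 0) (σ : Equiv.Perm (Fin e)) (hσ : σ ∈ 𝒢) (ω : Fin e → Ω)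
    (hω : ∀ i, ω i ^ Fintype.card F = ω (σ i)) (h' : Fin (Fintype.card 𝒢) → Fin (B' + 1) → F)
    (hh : rg ((C : Ω →+* Polynomial Ω).comp ((algebraMap F Ω).comp φ)) R.R
        (pt (fun j => algebraMap F Ω (y j)) (fun j => algebraMap F Ω (v j)))
        (fun i => C (ω i)) = bp (fun i j => algebraMap F Ω (h' i j))) :
    {z : F × F | evalEval z.1 z.2 (bp h') = 0 ∧
      ((bp h').map (evalRingHom z.1)).Separable}.ncard ≤
      Fintype.card 𝒢 * ({x : F | HasTypeG Ω φ R (fun j => y j + v j * x) σ}.ncard +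
        D.totalDegree * B) := by
  classical
  obtain ⟨P, hP⟩ : ∃ P : Finset (F × F), ∀ z, z ∈ P ↔ (evalEval z.1 z.2 (bp h') = 0 ∧
      ((bp h').map (evalRingHom z.1)).Separable) :=
    ⟨Finset.univ.filter fun z => evalEval z.1 z.2 (bp h') = 0 ∧
      ((bp h').map (evalRingHom z.1)).Separable, fun z => by simp⟩
  obtain ⟨T, hT⟩ : ∃ T : Finset F, ∀ x, x ∈ T ↔ HasTypeG Ω φ R (fun j => y j + v j * x) σ :=
    ⟨Finset.univ.filter fun x => HasTypeG Ω φ R (fun j => y j + v j * x) σ, fun x => by simp⟩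
  have e1 : {z : F × F | evalEval z.1 z.2 (bp h') = 0 ∧
      ((bp h').map (evalRingHom z.1)).Separable} = (P : Set (F × F)) := by
    ext z
    exact (hP z).symm
  have e2 : {x : F | HasTypeG Ω φ R (fun j => y j + v j * x) σ} = (T : Set F) := by
    ext x
    exact (hT x).symm
  rw [e1, e2, Set.ncard_coe_finset, Set.ncard_coe_finset]
  have hfib : ∀ a ∈ P.image Prod.fst, (P.filter fun z => z.1 = a).card ≤ Fintype.card 𝒢 := by
    intro a _
    have hm : ((bp h').map (evalRingHom a)).Monic := (bp_monic h').map _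
    have hd : ((bp h').map (evalRingHom a)).natDegree = Fintype.card 𝒢 := by
      rw [(bp_monic h').natDegree_map, bp_deg]
    have h1 : (P.filter fun z => z.1 = a).card ≤
        ((bp h').map (evalRingHom a)).roots.toFinset.card := by
      refine Finset.card_le_card_of_injOn Prod.snd ?_ ?_
      · intro z hz
        rw [Finset.mem_coe, Finset.mem_filter, hP] at hz
        rw [Finset.mem_coe, Multiset.mem_toFinset, mem_roots hm.ne_zero, IsRoot.def,
          map_evalRingHom_eval, ← hz.2]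
        exact hz.1.1
      · intro z hz w hw hzw
        rw [Finset.mem_coe, Finset.mem_filter] at hz hw
        exact Prod.ext (hz.2.trans hw.2.symm) hzw
    exact h1.trans ((Multiset.toFinset_card_le _).trans ((card_roots' _).trans hd.le))
  refine (Finset.card_le_mul_card_image P _ hfib).trans (Nat.mul_le_mul_left _ ?_)
  obtain ⟨Q, hQ⟩ : ∃ Q, Q = MvPolynomial.aeval (ev ((C : F →+* F[X]).comp φ) h (pt y v)) D :=
    ⟨_, rfl⟩
  have hQ0 : Q ≠ 0 := by rw [hQ]; exact hD0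
  have hQd : Q.natDegree ≤ D.totalDegree * B := by
    rw [hQ]
    apply deg_disc
    intro i
    unfold ev
    refine (deg_eval₂ _ _ _ 1 (fun j => deg_pt _ _ _)).trans ((mul_one _).le.trans (hB i))
  have hsub : P.image Prod.fst ⊆ T ∪ Q.roots.toFinset := by
    intro a ha
    obtain ⟨z, hz, rfl⟩ := Finset.mem_image.1 ha
    rw [hP] at hz
    rw [Finset.mem_union]
    by_cases h0 : Q.eval z.1 = 0
    · right
      rw [Multiset.mem_toFinset, mem_roots hQ0]
      exact h0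
    · left
      rw [hT]
      have h2 := spec_map R φ y v ω h' hh z.1
      refine point R hD φ (fun j => y j + v j * z.1) ?_ hm σ hσ ω hω ?_ z.2 ?_
      · rw [← disc_pt, ← hQ]
        exact h0
      · rw [← h2]
        exact hz.2.map
      · rw [← h2, eval_map_apply, map_evalRingHom_eval, hz.1, map_zero]
  refine (Finset.card_le_card hsub).trans ((Finset.card_union_le _ _).trans ?_)
  refine Nat.add_le_add_left ?_ _
  exact (Multiset.toFinset_card_le _).trans ((card_roots' _).trans hQd)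

theorem main : S_ONEG := by
  classical
  intro O _ k e h 𝒢 _ R D hD
  obtain ⟨B', hB'⟩ : ∃ B' : ℕ, ∀ i, (R.R i).totalDegree ≤ B' :=
    ⟨Finset.univ.sup fun i => (R.R i).totalDegree, fun i =>
      Finset.le_sup (f := fun i => (R.R i).totalDegree) (Finset.mem_univ i)⟩
  obtain ⟨B, hB⟩ : ∃ B : ℕ, ∀ i, (h i).totalDegree ≤ B :=
    ⟨Finset.univ.sup fun i => (h i).totalDegree, fun i =>
      Finset.le_sup (f := fun i => (h i).totalDegree) (Finset.mem_univ i)⟩
  obtain ⟨C₁, hC₁⟩ := Pool.Agent.N861.HX.main (Fintype.card 𝒢) B' Fintype.card_pos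
  refine ⟨C₁ + Fintype.card 𝒢 * (D.totalDegree * B) + R.m + 1, ?_⟩
  intro F Ω _ _ _ _ _ _ φ y v σ ω hchar hσ hω hD0 hirr
  obtain ⟨h', hh⟩ := descend R φ y v σ hσ ω hω B' hB'
  have hm : (R.m : F) ≠ 0 := by
    intro h0
    have h1 : ringChar F ∣ R.m := (ringChar.spec F R.m).1 h0
    have h2 := Nat.le_of_dvd (Nat.pos_of_ne_zero R.m_ne) h1
    omega
  have h1 := hC₁ F Ω h' (by omega) (by rw [← hh]; exact hirr)
  have h2 := count R hD hB φ y v hD0 hm σ hσ ω hω h' hh
  have h3 : (1 : ℝ) ≤ √(Fintype.card F : ℝ) := by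
    rw [Real.one_le_sqrt]
    exact_mod_cast Fintype.card_pos
  have h4 : (({z : F × F | evalEval z.1 z.2 (bp h') = 0 ∧
      ((bp h').map (evalRingHom z.1)).Separable}.ncard : ℕ) : ℝ) ≤
      (Fintype.card 𝒢 : ℝ) *
        ((({x : F | HasTypeG Ω φ R (fun j => y j + v j * x) σ}.ncard : ℕ) : ℝ) +
          ((D.totalDegree * B : ℕ) : ℝ)) := by
    exact_mod_cast h2
  have h5 : (Fintype.card 𝒢 : ℝ) * ((D.totalDegree * B : ℕ) : ℝ) ≤
      (Fintype.card 𝒢 : ℝ) * ((D.totalDegree * B : ℕ) : ℝ) * √(Fintype.card F : ℝ) :=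
    le_mul_of_one_le_right (by positivity) h3
  have h6 : (0 : ℝ) ≤ ((R.m : ℝ) + 1) * √(Fintype.card F : ℝ) := by positivity
  generalize √(Fintype.card F : ℝ) = s at *
  generalize (({z : F × F | evalEval z.1 z.2 (bp h') = 0 ∧
      ((bp h').map (evalRingHom z.1)).Separable}.ncard : ℕ) : ℝ) = a at *
  generalize (({x : F | HasTypeG Ω φ R (fun j => y j + v j * x) σ}.ncard : ℕ) : ℝ) = b at *
  push_cast at *
  nlinarith

end Pool.Agent.N136.HG.ONEG
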